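import Pool.Agent.H22.CM.Stm3

/-!
# CREW LG, second part: BN-pairs (MP_281388_al)

Every `d ∈ N` with `d ^ 2 ∈ B` satisfies `B d B ⊆ B d B B d B`. So the parabolic subgroups satisfy the double coset condition
`H22.CM.DCond` as soon as all double cosets of `W_J` in `W_K` contain an element of order at most two.
Write `C(n) = B n B`, `T = B ∩ N`, `n ≡ n'` for `n⁻¹ n' ∈ B`.
-/

set_option autoImplicit false

namespace H22.LG

/-- a BN-pair (Tits system); `S` is a set of representatives in `N` of the distinguished generators of `N / (B ∩ N)` -/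
structure BN (G : Type) [Group G] where
  /-- the Borel subgroup -/
  B : Subgroup G
  /-- the second subgroup -/
  N : Subgroup G
  /-- representatives of the distinguished generators of the Weyl group `N / (B ∩ N)` -/
  S : Set G
  sN : ∀ s ∈ S, s ∈ N
  sB : ∀ s ∈ S, s ∉ B
  ss : ∀ s ∈ S, s * s ∈ B
  nor : ∀ n ∈ N, ∀ t ∈ B, t ∈ N → n * t * n⁻¹ ∈ B
  gen : ∀ n ∈ N, ∃ l : List G, (∀ s ∈ l, s ∈ S) ∧ l.prod⁻¹ * n ∈ B
  top : Subgroup.closure ((B : Set G) ∪ (N : Set G)) = ⊤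
  mul : ∀ s ∈ S, ∀ n ∈ N, ∀ b ∈ B, ∃ m ∈ ({n, s * n} : Set G), ∃ b₁ ∈ B, ∃ b₂ ∈ B, s * b * n = b₁ * m * b₂
  thick : ∀ s ∈ S, ∃ b ∈ B, s * b * s ∉ B

variable {G : Type} [Group G]

/-- `B n B` -/
def BN.C (D : BN G) (n : G) : Set G := {x | ∃ b ∈ D.B, ∃ c ∈ D.B, x = b * n * c}

/-- `n` is a product of `k` generators times an element of `B` -/
def BN.Rep (D : BN G) (k : ℕ) (n : G) : Prop :=
  ∃ l : List G, l.length = k ∧ (∀ s ∈ l, s ∈ D.S) ∧ l.prod⁻¹ * n ∈ D.B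

open Classical in
/-- the length of `n ∈ N` -/
noncomputable def BN.len (D : BN G) (n : G) : ℕ := sInf {k | D.Rep k n}

/-- the parabolic subgroup of `J ⊆ S` -/
def BN.P (D : BN G) (J : Set G) : Subgroup G := Subgroup.closure ((D.B : Set G) ∪ J)

/-- **LEN** (80 lines). For `(s⁻¹ n)`: `s⁻¹ = (s s)⁻¹ s`, `s s ∈ B ∩ N`. Inverse of a word: `(s₁ ⋯ s_k)⁻¹ = s_k⁻¹ ⋯ s₁⁻¹
≡ s_k ⋯ s₁` by normality of `B ∩ N` in `N` (induction). -/
def S_LEN : Prop := ∀ (G : Type) [Group G] (D : BN G), ∀ n ∈ D.N,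
  (∀ t ∈ D.B, t ∈ D.N → D.len (n * t) = D.len n ∧ D.len (t * n) = D.len n) ∧
  D.len n⁻¹ = D.len n ∧
  (∀ s ∈ D.S, D.len (s * n) ≤ D.len n + 1 ∧ D.len (n * s) ≤ D.len n + 1 ∧
    D.len (s⁻¹ * n) = D.len (s * n) ∧ D.len (n * s⁻¹) = D.len (n * s)) ∧
  (n ∉ D.B → ∃ s ∈ D.S, D.len (s * n) < D.len n) ∧
  (n ∉ D.B → ∃ s ∈ D.S, D.len (n * s) < D.len n) ∧
  (D.len n = 0 ↔ n ∈ D.B)

/-- **UNQ** (50 lines, from LEN). Induction on `min (len n) (len n')`, say `len n ≤ len n'` (symmetry: `n' ∈ C(n)` iff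
`n ∈ C(n')`). `len n = 0`: `n ∈ B`, so `n' ∈ B`. Otherwise take `s` with `m = s n`, `len m < len n`. `n' = b n c`, so
`s b⁻¹ n' = s n c'... ∈ C(m)`, and by `mul` it is in `C(n') ∪ C(s n')`. So `n' ∈ C(m)` or `s n' ∈ C(m)`; by induction
`m ≡ n'` (impossible, `len m < len n ≤ len n'`) or `m = s n ≡ s n'`, so `n ≡ n'`. -/
def S_UNQ : Prop := ∀ (G : Type) [Group G] (D : BN G), ∀ n ∈ D.N, ∀ n' ∈ D.N, n' ∈ D.C n → n⁻¹ * n' ∈ D.B

/-- **EXT** (80 lines, from LEN UNQ). First claim by induction on `len n`: `n ∈ B`: clear. Else `n ≡ w t`, `t ∈ S`,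
`len w < len n` (`w = n t`, `w t = n (t t)`). `len w ≤ len (s w)` (else `len (s n) ≤ len (s w) + 1 < len w + 1 ≤ len n`). If
`s b n ∉ C(s n)` then `s b n ∈ C(n)` by `mul`, so `s b w ∈ C(n) B t ⊆ C(n) ∪ C(n t) = C(n) ∪ C(w)` (the axiom `mul` for the
inverses), and `s b w ∈ C(s w)` by induction. So by UNQ `s w ≡ n` (then `w ≡ s⁻¹ n`, `len (s n) = len w < len n`,
contradiction) or `s w ≡ w` (then `s ∈ w T w⁻¹ ⊆ B`, contradiction). Second claim: inverses. -/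
def S_EXT : Prop := ∀ (G : Type) [Group G] (D : BN G), ∀ n ∈ D.N, ∀ s ∈ D.S,
  (D.len n ≤ D.len (s * n) → ∀ b ∈ D.B, s * b * n ∈ D.C (s * n)) ∧
  (D.len n ≤ D.len (n * s) → ∀ b ∈ D.B, n * b * s ∈ D.C (n * s))

/-- **INO** (120 lines, from LEN UNQ EXT). Write products of double cosets `C(m) C(n) = {x y}`. Induction on `len d` for:
`C(d) ⊆ C(d) C(d)` (equivalently `d ∈ C(d) C(d)`). `d ∈ B` clear. Else take `s ∈ S` with `e = s⁻¹ d`, `len e < len d`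
(so `len e < len (s e)`): `C(d) = C(s) C(e)` by EXT. `C(s) C(s) ⊇ B ∪ C(s)` (`s s ∈ B`; `thick` and `mul`).
Case A: `len (e s) < len e`. `f = e s = s⁻¹ d s ∈ N`, `f f ∈ B` (`nor`), `len f < len d`, `e ≡ f s`, `C(e) = C(f) C(s)` by
EXT, `C(d) = C(s) C(f) C(s)`, `C(d) C(d) ⊇ C(s) C(f) B C(f) C(s) ⊇ C(s) C(f) C(s) = C(d)` by induction.
Case B: `len e ≤ len (e s)`: `C(e) C(s) = C(e s)`. As `d ≡ d⁻¹`: `len (d s) = len (s⁻¹ d⁻¹) = len (s d) = len e < len d`, so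
(inverse of `C(d⁻¹) = C(s) C(s d⁻¹)`) `C(d) = C(d s) C(s)`, `C(d) ⊆ C(d s) C(s) C(s) = C(d) C(s) = C(s) C(e) C(s) =
C(s) C(e s) ⊆ C(e s) ∪ C(s e s)`; `s e s = d s`, and `C(d) = C(d s)` is impossible (UNQ, lengths); so `d ≡ e s`, i.e.
`s e ≡ e s`; so `C(d) = C(s) C(e) = C(e) C(s)` and `e e ∈ B` (`e e = s⁻¹ d s⁻¹ d ≡ s⁻¹ s⁻¹ d d`). `C(d) C(d) = C(e) C(s) C(s)
C(e) ⊇ C(e) C(s) C(e) = C(s) C(e) C(e) ⊇ C(s) C(e) = C(d)` by induction. -/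
def S_INO : Prop := ∀ (G : Type) [Group G] (D : BN G), ∀ d ∈ D.N, d * d ∈ D.B → ∃ b ∈ D.B, d * b * d ∈ D.C d

/-- **DEC** (50 lines). `Subgroup.closure_induction_left` and the axiom `mul` (`s⁻¹ = (s s)⁻¹ s`). -/
def S_DEC : Prop := ∀ (G : Type) [Group G] (D : BN G) (J : Set G), J ⊆ D.S → ∀ x ∈ D.P J,
  ∃ n ∈ Subgroup.closure J, x ∈ D.C n

/-- **PST** (80 lines, from INO DEC). `φ = ψ = 1` in `DCond`: for `x₀ ∈ P_K`, `x₀ ∈ C(n)`, `n ∈ ⟨K⟩`, `m = a n b`,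
`m m ∈ B`: `m c m ∈ C(m)` for some `c ∈ B` (`INO`; `m ∈ N` since `S ⊆ N`); `x = m c`, `y = m`. -/
def S_PST : Prop := ∀ (G : Type) [Group G] [Finite G] (D : BN G) (J K : Set G), J ⊆ K → K ⊆ D.S →
  (∀ n ∈ Subgroup.closure K, ∃ a ∈ Subgroup.closure J, ∃ b ∈ Subgroup.closure J, (a * n * b) * (a * n * b) ∈ D.B) →
  H22.CM.DCond (D.P K) ((D.P J).subgroupOf (D.P K))

end H22.LG
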