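import Pool.Agent.H22.CM.Final
import Pool.Agent.H22.CM.Chain
import Pool.Agent.H6.CM.SYM
import Pool.Agent.H26.CM.ALT
import Pool.Agent.H18.CM.SA4
import Pool.Agent.H19.LG.THR
import Pool.Agent.H26.LG.CHN
import Pool.Agent.H38.LG.LIN
import Pool.Agent.H38.LG.ROW
import Pool.Agent.H40.LG.UPB
import Pool.Agent.H43.LG.BRU
import Pool.Agent.H50.LG.INV
import Pool.Agent.H56.LG.SLB
import Pool.Agent.H66.LG.KLE

set_option autoImplicit false

namespace H22.LG

open Pool.Agent.Y382.PAR H22.CM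

theorem a_DTA : S_DTA := H83.CM.t_DTA H6.CM.t_DTR H30.CM.t_HOLE
theorem a_SYM : S_SYM := H6.CM.t_SYM H6.CM.t_DTR H30.CM.t_HOLE H18.CM.t_S4
theorem a_ALT : S_ALT := H26.CM.t_ALT a_DTA H18.CM.t_A4
theorem a_CHN : S_CHN := H26.LG.t_CHN H43.LG.t_BRU H19.LG.t_THR a_DTA

/-- linear groups whose upper triangular subgroup satisfies the Hall-Paige condition -/
theorem a_LIN2 : ∃ N : ℕ, ∀ (F : Type) [Field F] [Fintype F] [DecidableEq F] (n : ℕ) (G : Type) [Group G] [Finite G]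
    (D : Dat n F G), 2 ≤ n → (3 ≤ n ∨ CharP F 2 ∨
      ∀ P : Sylow 2 (Q D n), (P : Subgroup (Q D n)) = ⊥ ∨ ¬ IsCyclic (P : Subgroup (Q D n))) →
    N ≤ Nat.card G → AllPar G := by
  obtain ⟨N0, hN0⟩ := a_SOL
  obtain ⟨N1, hN1⟩ := H38.LG.t_LIN H56.LG.t_SLB H66.LG.t_KLE H50.LG.t_INV H38.LG.t_ROW H40.LG.t_UPB a_CHN a_SOL
  refine ⟨N0 ^ (N0 * N0) + 17 + N1, ?_⟩
  intro F _ _ _ n G _ _ D hn hcase hN
  rcases hcase with h | h | h
  · exact hN1 F n G D hn (Or.inl h) (by omega)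
  · exact hN1 F n G D hn (Or.inr h) (by omega)
  have hq2 : 2 ≤ Fintype.card F := Fintype.one_lt_card
  have hG := H40.LG.t_UPB F n G D
  by_cases hbig : N0 ≤ Nat.card (Q D n)
  · haveI := H38.LG.Q_solvable H56.LG.t_SLB F n G D
    exact a_CHN F n G D (by omega) (hN0 (Q D n) hbig h)
  · exfalso
    have h1 := H38.LG.t_ROW F n G D (by omega)
    have h2 : Fintype.card F ^ (n - 1) < N0 := by omega
    have h3 : Fintype.card F ≤ Fintype.card F ^ (n - 1) := by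
      calc Fintype.card F = Fintype.card F ^ 1 := (pow_one _).symm
        _ ≤ Fintype.card F ^ (n - 1) := Nat.pow_le_pow_right (by omega) (by omega)
    have h4 : n - 1 < Fintype.card F ^ (n - 1) := Nat.lt_pow_self (by omega)
    have h5 : n ≤ N0 := by omega
    have h6 : Fintype.card F ≤ N0 := by omega
    have h7 : Fintype.card F ^ (n * n) ≤ N0 ^ (N0 * N0) :=
      calc Fintype.card F ^ (n * n) ≤ N0 ^ (n * n) := Nat.pow_le_pow_left h6 _
        _ ≤ N0 ^ (N0 * N0) := Nat.pow_le_pow_right (by omega) (Nat.mul_le_mul h5 h5)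
    omega

end H22.LG
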