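import Pool.Agent.H22.LG.BN

set_option autoImplicit false

namespace H22.LG

variable {G : Type} [Group G]

theorem BN.Rep.right {D : BN G} {k : ℕ} {n t : G} (h : D.Rep k n) (ht : t ∈ D.B) : D.Rep k (n * t) := by
  obtain ⟨l, hl, hs, hB⟩ := h
  exact ⟨l, hl, hs, by rw [← mul_assoc]; exact D.B.mul_mem hB ht⟩

theorem BN.Rep.left {D : BN G} {k : ℕ} {n t : G} (h : D.Rep k n) (hn : n ∈ D.N) (ht : t ∈ D.B) (htN : t ∈ D.N) :
    D.Rep k (t * n) := by
  have h1 : n⁻¹ * t * n ∈ D.B := by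
    have := D.nor n⁻¹ (D.N.inv_mem hn) t ht htN
    rwa [inv_inv] at this
  have h2 := h.right h1
  have e : n * (n⁻¹ * t * n) = t * n := by group
  rwa [e] at h2

theorem BN.Rep.cons {D : BN G} {k : ℕ} {n s : G} (h : D.Rep k n) (hs : s ∈ D.S) : D.Rep (k + 1) (s * n) := by
  obtain ⟨l, hl, hS, hB⟩ := h
  refine ⟨s :: l, by simp [hl], ?_, ?_⟩
  · intro x hx
    rcases List.mem_cons.1 hx with rfl | hx
    · exact hs
    · exact hS x hx
  · rw [List.prod_cons]
    have e : (s * l.prod)⁻¹ * (s * n) = l.prod⁻¹ * n := by group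
    rw [e]; exact hB

theorem prod_mem (D : BN G) (l : List G) (h : ∀ s ∈ l, s ∈ D.S) : l.prod ∈ D.N :=
  D.N.list_prod_mem fun s hs => D.sN s (h s hs)

theorem inv_word (D : BN G) (l : List G) (h : ∀ s ∈ l, s ∈ D.S) :
    ∃ t ∈ D.B, t ∈ D.N ∧ l.prod⁻¹ = l.reverse.prod * t := by
  induction l with
  | nil => exact ⟨1, D.B.one_mem, D.N.one_mem, by simp⟩
  | cons s l ih =>
    obtain ⟨t, ht, htN, e⟩ := ih fun x hx => h x (List.mem_cons_of_mem _ hx)
    have hs : s ∈ D.S := h s List.mem_cons_self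
    have hsN := D.sN s hs
    have h1 : s⁻¹ * t * s ∈ D.B := by
      have := D.nor s⁻¹ (D.N.inv_mem hsN) t ht htN
      rwa [inv_inv] at this
    refine ⟨(s⁻¹ * t * s) * (s * s)⁻¹, D.B.mul_mem h1 (D.B.inv_mem (D.ss s hs)), ?_, ?_⟩
    · exact D.N.mul_mem (D.N.mul_mem (D.N.mul_mem (D.N.inv_mem hsN) htN) hsN)
        (D.N.inv_mem (D.N.mul_mem hsN hsN))
    · rw [List.prod_cons, mul_inv_rev, e, List.reverse_cons, List.prod_append, List.prod_singleton]
      group

theorem BN.Rep.inv {D : BN G} {k : ℕ} {n : G} (h : D.Rep k n) (hn : n ∈ D.N) : D.Rep k n⁻¹ := by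
  obtain ⟨l, hl, hs, hB⟩ := h
  obtain ⟨t, ht, htN, e⟩ := inv_word D l hs
  have hlN := prod_mem D l hs
  have h0 : D.Rep k (l.reverse.prod) := by
    refine ⟨l.reverse, by simp [hl], fun s h => hs s (List.mem_reverse.1 h), ?_⟩
    rw [inv_mul_cancel]; exact D.B.one_mem
  have h1 := h0.right ht
  rw [← e] at h1
  have h2 := h1.left (D.N.inv_mem hlN) (D.B.inv_mem hB) (D.N.inv_mem (D.N.mul_mem (D.N.inv_mem hlN) hn))
  have e2 : (l.prod⁻¹ * n)⁻¹ * l.prod⁻¹ = n⁻¹ := by group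
  rwa [e2] at h2

theorem rep_len (D : BN G) {n : G} (hn : n ∈ D.N) : D.Rep (D.len n) n := by
  obtain ⟨l, hl, hB⟩ := D.gen n hn
  exact Nat.sInf_mem (s := {k | D.Rep k n}) ⟨l.length, l, rfl, hl, hB⟩

theorem len_le (D : BN G) {k : ℕ} {n : G} (h : D.Rep k n) : D.len n ≤ k := Nat.sInf_le h

theorem len_right (D : BN G) {n t : G} (hn : n ∈ D.N) (ht : t ∈ D.B) (htN : t ∈ D.N) : D.len (n * t) = D.len n := by
  apply le_antisymm
  · exact len_le D ((rep_len D hn).right ht)
  · have h := (rep_len D (D.N.mul_mem hn htN)).right (D.B.inv_mem ht)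
    rw [mul_inv_cancel_right] at h
    exact len_le D h

theorem len_left (D : BN G) {n t : G} (hn : n ∈ D.N) (ht : t ∈ D.B) (htN : t ∈ D.N) : D.len (t * n) = D.len n := by
  apply le_antisymm
  · exact len_le D ((rep_len D hn).left hn ht htN)
  · have h := (rep_len D (D.N.mul_mem htN hn)).left (D.N.mul_mem htN hn) (D.B.inv_mem ht) (D.N.inv_mem htN)
    rw [inv_mul_cancel_left] at h
    exact len_le D h

theorem len_inv (D : BN G) {n : G} (hn : n ∈ D.N) : D.len n⁻¹ = D.len n := by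
  apply le_antisymm
  · exact len_le D ((rep_len D hn).inv hn)
  · have h := (rep_len D (D.N.inv_mem hn)).inv (D.N.inv_mem hn)
    rw [inv_inv] at h
    exact len_le D h

theorem len_sinv (D : BN G) {n s : G} (hn : n ∈ D.N) (hs : s ∈ D.S) :
    D.len (s⁻¹ * n) = D.len (s * n) ∧ D.len (n * s⁻¹) = D.len (n * s) := by
  have hsN := D.sN s hs
  constructor
  · have e : s * n = (s * s) * (s⁻¹ * n) := by group
    rw [e, len_left D (D.N.mul_mem (D.N.inv_mem hsN) hn) (D.ss s hs) (D.N.mul_mem hsN hsN)]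
  · have e : n * s = (n * s⁻¹) * (s * s) := by group
    rw [e, len_right D (D.N.mul_mem hn (D.N.inv_mem hsN)) (D.ss s hs) (D.N.mul_mem hsN hsN)]

theorem len_cons (D : BN G) {n s : G} (hn : n ∈ D.N) (hs : s ∈ D.S) : D.len (s * n) ≤ D.len n + 1 :=
  len_le D ((rep_len D hn).cons hs)

theorem len_snoc (D : BN G) {n s : G} (hn : n ∈ D.N) (hs : s ∈ D.S) : D.len (n * s) ≤ D.len n + 1 := by
  have hsN := D.sN s hs
  have h := len_cons D (D.N.inv_mem hn) hs
  rw [len_inv D hn] at h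
  have h2 : D.len (s * n⁻¹) = D.len (n * s) := by
    rw [← len_inv D (D.N.mul_mem hsN (D.N.inv_mem hn)), mul_inv_rev, inv_inv]
    exact (len_sinv D hn hs).2
  rwa [h2] at h

theorem desc (D : BN G) {n : G} (hn : n ∈ D.N) (hB : n ∉ D.B) : ∃ s ∈ D.S, D.len (s * n) < D.len n := by
  obtain ⟨l, hl, hS, h⟩ := rep_len D hn
  cases l with
  | nil => simp only [List.prod_nil, inv_one, one_mul] at h; exact absurd h hB
  | cons s l =>
    have hs : s ∈ D.S := hS s List.mem_cons_self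
    have hsN := D.sN s hs
    refine ⟨s, hs, ?_⟩
    have h1 : D.Rep l.length (s⁻¹ * n) := by
      refine ⟨l, rfl, fun x hx => hS x (List.mem_cons_of_mem _ hx), ?_⟩
      rw [List.prod_cons, mul_inv_rev] at h
      rwa [← mul_assoc]
    rw [← (len_sinv D hn hs).1]
    have := len_le D h1
    rw [List.length_cons] at hl
    omega

theorem t_LEN : S_LEN := by
  intro G _ D n hn
  refine ⟨fun t ht htN => ⟨len_right D hn ht htN, len_left D hn ht htN⟩, len_inv D hn, ?_, ?_, ?_, ?_⟩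
  · intro s hs
    exact ⟨len_cons D hn hs, len_snoc D hn hs, (len_sinv D hn hs).1, (len_sinv D hn hs).2⟩
  · exact desc D hn
  · intro hB
    have hB' : n⁻¹ ∉ D.B := fun h => hB (by simpa using D.B.inv_mem h)
    obtain ⟨s, hs, h⟩ := desc D (D.N.inv_mem hn) hB'
    refine ⟨s, hs, ?_⟩
    rw [len_inv D hn] at h
    have h2 : D.len (s * n⁻¹) = D.len (n * s) := by
      rw [← len_inv D (D.N.mul_mem (D.sN s hs) (D.N.inv_mem hn)), mul_inv_rev, inv_inv]
      exact (len_sinv D hn hs).2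
    rwa [h2] at h
  · constructor
    · intro h
      have h1 := rep_len D hn
      rw [h] at h1
      obtain ⟨l, hl, _, hB⟩ := h1
      rw [List.length_eq_zero_iff] at hl
      subst hl
      simpa using hB
    · intro h
      have h1 : D.Rep 0 n := ⟨[], rfl, by simp, by simpa using h⟩
      have := len_le D h1
      omega

end H22.LG
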