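import Pool.Agent.H22.LG.Par
import Pool.Agent.H22.LG.LEN
import Pool.Agent.H10.LG.EXT
import Pool.Agent.H10.LG.UNQ
import Pool.Agent.H93.LG.INO

/-!
# Parities of complete mappings: solvable, symmetric, alternating, linear groups and groups of Lie type

For a complete mapping `f` of a finite group `G` with orthomorphism `F x = x f(x)` there are four possibilities for the
pair of signs of `f` and `F`. There is `N` such that all four occur for every finite group `G` which is reached from a
base group of order at least `N`: a solvable group with the Hall-Paige condition, a symmetric or alternating group, or a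
linear group (`GL`, `SL`, `PGL`, `PSL` and the groups between them, of degree at least 3 or in characteristic two or with an
upper triangular subgroup satisfying the Hall-Paige condition). Reached: by a chain of subgroups with the double coset
condition of Hall-Paige and Wilcox, or with complements of odd order, or by parabolic subgroups of a BN-pair.

Proof. (1) Holes: if a complete mapping of `G` maps a subgroup `L` to itself, it may be changed inside `L`; so four pairs
for `L` give four pairs for `G`. (2) Complete mappings which map `H` to itself are constructed from the double coset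
condition (common transversals and the marriage theorem) and from exact factorisations `G = K H`, `|K|` odd. (3) Two-groups:
a noncyclic 2-group of order at least 16 has an element of half order or a normal noncyclic subgroup `N` whose quotient is
the four-group. The groups of order `4 m` with a cyclic subgroup of index two contain a subgroup `L` of index 4 of the same
kind with an explicit complete mapping of the complement of `L`, given by twelve pieces; groups of order 16 and 32 are
checked by certificates. So all four pairs occur for noncyclic 2-groups of order 16 or at least 64. (4) Solvable groups: if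
the largest normal subgroup of odd order has order different from 1, 3, 5, the odd order theorem of the library (all four
pairs occur for odd order different from 1, 3, 5) is used; otherwise the Sylow 2-subgroup is large and has a
complement. (5) Symmetric and alternating groups: induction by double transitivity, from certificates for `S_4`, `A_4`.
(6) Linear groups: the stabiliser `P_k` of a flag `V_1 < ... < V_k` is doubly transitive on the cosets of `P_(k+1)`, and
the upper triangular matrices form a solvable group. (7) BN-pairs: `B w B ⊆ B w B B w B` for every `w` in the Weyl group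
with `w ^ 2 = 1` (induction on the length), so a double coset of parabolic subgroups which contains such a `w` satisfies
`D ⊆ D D`.

Proved by helpers 4, 6, 10, 18, 19, 26, 30, 31, 32, 38, 40, 42, 43, 50, 55, 56, 61, 64, 66, 81, 83, 91, 93, 99 and 22.
-/

set_option autoImplicit false

namespace Pool.Agent.Results.MP_281388_al.LieAltSolvable

open H22.CM

/-- For all signs `a, b` there is a complete mapping `f` of `G` of sign `a` whose orthomorphism `x ↦ x f(x)` has
sign `b`. -/
def AllFour (G : Type) [Group G] [Finite G] : Prop :=
  ∀ [Fintype G] [DecidableEq G], ∀ a b : ℤˣ, ∃ f : Equiv.Perm G, ∃ hf : Function.Bijective (fun x : G => x * f x),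
    Equiv.Perm.sign f = a ∧ Equiv.Perm.sign (Equiv.ofBijective (fun x : G => x * f x) hf) = b

/-- The Hall-Paige condition. -/
def HallPaige (G : Type) [Group G] : Prop := ∀ P : Sylow 2 G, (P : Subgroup G) = ⊥ ∨ ¬ IsCyclic (P : Subgroup G)

/-- The base groups: solvable groups with the Hall-Paige condition, symmetric and alternating groups, and the linear groups
`H` (`SL(m, F) ≤ E ≤ GL(m, F)` and `H` is the quotient of `E` by scalars; `H22.LG.Dat`) with `m ≥ 3`, or `F` of
characteristic two, or such that the image `H22.LG.Q D m` of the upper triangular matrices satisfies the Hall-Paige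
condition. -/
inductive Base (H : Type) [Group H] : Prop
  | solvable (hs : Group.IsSolvable H) (hp : HallPaige H) : Base H
  | symmetric (m : ℕ) (e : H ≃* Equiv.Perm (Fin m)) : Base H
  | alternating (m : ℕ) (e : H ≃* alternatingGroup (Fin m)) : Base H
  | linear (F : Type) [Field F] [Fintype F] [DecidableEq F] (m : ℕ) (D : H22.LG.Dat m F H) (hm : 2 ≤ m)
      (h : 3 ≤ m ∨ CharP F 2 ∨ HallPaige (H22.LG.Q D m)) : Base H

/-- There are permutations `φ, ψ` of the set of double cosets of `H`, preserving the sizes and the trivial double coset,
such that `D φ(D)` meets (equivalently contains) `ψ(D)` for every double coset `D`. -/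
def DoubleCosetCondition (G : Type) [Group G] (H : Subgroup G) : Prop :=
  ∃ φ ψ : Equiv.Perm (DoubleCoset.Quotient (H : Set G) (H : Set G)),
    φ (DoubleCoset.mk H H 1) = DoubleCoset.mk H H 1 ∧ ψ (DoubleCoset.mk H H 1) = DoubleCoset.mk H H 1 ∧
    (∀ d, Nat.card {x : G // DoubleCoset.mk H H x = φ d} = Nat.card {x : G // DoubleCoset.mk H H x = d}) ∧
    (∀ d, Nat.card {x : G // DoubleCoset.mk H H x = ψ d} = Nat.card {x : G // DoubleCoset.mk H H x = d}) ∧
    ∀ d, ∃ x y : G, DoubleCoset.mk H H x = d ∧ DoubleCoset.mk H H y = φ d ∧ DoubleCoset.mk H H (x * y) = ψ d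

/-- `H` has a complement `K` of odd order in `G`: `K ∩ H = 1` and `|K| |H| = |G|`. -/
def OddComplement (G : Type) [Group G] (H : Subgroup G) : Prop :=
  ∃ K : Subgroup G, Odd (Nat.card K) ∧ (∀ x, x ∈ K → x ∈ H → x = 1) ∧ Nat.card K * Nat.card H = Nat.card G

/-- `Reaches A C`: there is a chain of subgroups from `A` to `C` such that each step `A_i, A_{i+1}` is of one of the
following kinds: `A_i ≤ A_{i+1}` satisfies in `A_{i+1}` the double coset condition or has there a complement of odd order;
or there is a BN-pair `(B, N)` of a subgroup of `G` with Weyl group `(W, S)` and `J ⊆ K ⊆ S` with `A_i = P_J = B W_J B`,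
`A_{i+1} = P_K`, such that every double coset of `W_J` in `W_K` contains an element `w` with `w ^ 2 = 1`. -/
inductive Reaches {G : Type} [Group G] : Subgroup G → Subgroup G → Prop
  | refl (A : Subgroup G) : Reaches A A
  | step {A B C : Subgroup G} : Reaches A B → B ≤ C →
      DoubleCosetCondition C (B.subgroupOf C) ∨ OddComplement C (B.subgroupOf C) → Reaches A C
  | parabolic {A : Subgroup G} (C : Subgroup G) (D : H22.LG.BN C) (J K : Set C) : J ⊆ K → K ⊆ D.S →
      (∀ n ∈ Subgroup.closure K, ∃ a ∈ Subgroup.closure J, ∃ b ∈ Subgroup.closure J,
        (a * n * b) * (a * n * b) ∈ D.B) →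
      Reaches A ((D.P J).map C.subtype) → Reaches A ((D.P K).map C.subtype)

theorem allFour_of (G : Type) [Group G] [Finite G] (h : Pool.Agent.Y382.PAR.AllPar G) : AllFour G := by
  intro _ _
  exact (Pool.Agent.Y382.PAR.allPar_iff G).1 h

theorem reaches_of (hP : H22.LG.S_PST) {G : Type} [Group G] [Finite G] {A B : Subgroup G} (h : Reaches A B)
    (hA : Pool.Agent.Y382.PAR.AllPar A) : Pool.Agent.Y382.PAR.AllPar B := by
  induction h with
  | refl => exact hA
  | step h1 h2 h3 ih =>
    apply step_allPar a_DCG _ _ h3
    exact Pool.Agent.Y77.PAR.t_ISO _ _ (Subgroup.subgroupOfEquivOfLe h2).symm ih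
  | parabolic C D J K h1 h2 h3 _ ih => exact H22.LG.par_step hP C D J K h1 h2 h3 ih

theorem small_perm {m : ℕ} (h : 7 ≤ Nat.card (Equiv.Perm (Fin m))) : 4 ≤ m := by
  by_contra hm
  have h1 : Nat.card (Equiv.Perm (Fin m)) ≤ 6 := by
    rw [Nat.card_eq_fintype_card, Fintype.card_perm, Fintype.card_fin]
    calc m.factorial ≤ (3 : ℕ).factorial := Nat.factorial_le (by omega)
      _ = 6 := rfl
  omega

/-- the double coset condition for parabolic subgroups -/
theorem a_PST : H22.LG.S_PST := by
  have hL := H22.LG.t_LEN
  have hU := H10.LG.t_UNQ hL
  have hE := H10.LG.EXT.t_EXT hL hU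
  exact H22.LG.t_PST (Pool.Agent.H93.LG.t_INO hL hU hE) H64.LG.t_DEC

/-- **Theorem.** There is `N` such that: if `G` is a finite group and `H` a subgroup of order at least `N` which is a base
group (solvable with the Hall-Paige condition, symmetric, alternating or linear), such that `G` is reached from `H` (for
instance `H = G`), then `G` has complete mappings with all four pairs of signs. -/
theorem result : ∃ N : ℕ, ∀ (G : Type) [Group G] [Finite G] (H : Subgroup G), Base H →
    N ≤ Nat.card H → Reaches H ⊤ → AllFour G := by
  have hP := a_PST
  obtain ⟨n1, hn1⟩ := a_SOL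
  obtain ⟨n2, hn2⟩ := H22.LG.a_LIN2
  refine ⟨n1 + n2 + 7, fun G _ _ H hb hc hr => allFour_of G ?_⟩
  have h1 : Pool.Agent.Y382.PAR.AllPar H := by
    cases hb with
    | solvable hs hp =>
      have := hs
      exact hn1 H (by omega) hp
    | symmetric m e =>
      refine Pool.Agent.Y77.PAR.t_ISO _ _ e.symm (H22.LG.a_SYM m ?_)
      apply small_perm
      rw [← Nat.card_congr e.toEquiv]; omega
    | alternating m e =>
      refine Pool.Agent.Y77.PAR.t_ISO _ _ e.symm (H22.LG.a_ALT m ?_)
      apply small_perm
      have h2 : Nat.card (alternatingGroup (Fin m)) ≤ Nat.card (Equiv.Perm (Fin m)) :=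
        Nat.card_le_card_of_injective _ (Subtype.val_injective)
      rw [← Nat.card_congr e.toEquiv] at h2; omega
    | linear F m D hm h => exact hn2 F m H D hm h (by omega)
  have h2 := reaches_of hP hr h1
  exact Pool.Agent.Y77.PAR.t_ISO _ _ Subgroup.topEquiv h2

end Pool.Agent.Results.MP_281388_al.LieAltSolvable
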