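import Pool.Agent.H22.CM.Stm

/-!
# Lifting the four sign pairs through a normal subgroup of odd order
-/

set_option autoImplicit false

namespace H22.LG

open Pool.Agent.Y382.PAR

variable {G : Type} [Group G] (M : Subgroup G) [M.Normal]

/-- representatives -/
noncomputable def sec (i : G ⧸ M) : G := Quotient.out i

theorem sec_eq (i : G ⧸ M) : ((sec M i : G) : G ⧸ M) = i := Quotient.out_eq' i

/-- the chart `(i, n) ↦ s_i n` -/
noncomputable def chart : (G ⧸ M) × M ≃ G where
  toFun p := sec M p.1 * p.2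
  invFun x := ((x : G ⧸ M), ⟨(sec M (x : G ⧸ M))⁻¹ * x, by
    rw [← QuotientGroup.eq, sec_eq]⟩)
  left_inv p := by
    have h : ((sec M p.1 * (p.2 : G) : G) : G ⧸ M) = p.1 := by
      rw [QuotientGroup.mk_mul, sec_eq, (QuotientGroup.eq_one_iff (p.2 : G)).2 p.2.2, mul_one]
    apply Prod.ext
    · exact h
    · apply Subtype.ext
      show (sec M ((sec M p.1 * (p.2 : G) : G) : G ⧸ M))⁻¹ * (sec M p.1 * p.2) = p.2
      rw [h, inv_mul_cancel_left]
  right_inv x := by
    show sec M (x : G ⧸ M) * ((sec M (x : G ⧸ M))⁻¹ * x) = x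
    rw [mul_inv_cancel_left]

theorem chart_apply (i : G ⧸ M) (n : M) : chart M (i, n) = sec M i * n := rfl

/-- conjugation by `s_i⁻¹` on `M` -/
noncomputable def kap (i : G ⧸ M) : Equiv.Perm M := (MulAut.conjNormal (sec M i)⁻¹ : MulAut M).toEquiv

theorem kap_apply (i : G ⧸ M) (n : M) : ((kap M i n : M) : G) = (sec M i)⁻¹ * n * sec M i := by
  show ((MulAut.conjNormal (sec M i)⁻¹ n : M) : G) = _
  rw [MulAut.conjNormal_apply, inv_inv]

theorem sign_mulLeft_odd {H : Type} [Group H] [Fintype H] [DecidableEq H] (hH : Odd (Nat.card H)) (c : H) :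
    Equiv.Perm.sign (Equiv.mulLeft c) = 1 := by
  have h1 : (Equiv.mulLeft c : Equiv.Perm H) ^ Nat.card H = 1 := by
    rw [Equiv.pow_mulLeft, pow_card_eq_one', Equiv.mulLeft_one]
  have h2 : Equiv.Perm.sign (Equiv.mulLeft c : Equiv.Perm H) ^ Nat.card H = 1 := by
    rw [← map_pow, h1, map_one]
  rcases Int.units_eq_one_or (Equiv.Perm.sign (Equiv.mulLeft c : Equiv.Perm H)) with h | h
  · exact h
  · rw [h, hH.neg_one_pow] at h2
    exact absurd h2 (by decide)

/-- **LIFT**. Four sign pairs pass from `G ⧸ M` to `G` if `M` has odd order. -/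
theorem t_LIFT [Finite G] (hM : Odd (Nat.card M)) (h : AllPar (G ⧸ M)) : AllPar G := by
  classical
  intro ε δ
  have : Fintype G := Fintype.ofFinite G
  have : Fintype (G ⧸ M) := Fintype.ofFinite _
  have : Fintype M := Fintype.ofFinite _
  have hc : (Nat.card M).Coprime 2 := Nat.coprime_two_right.2 hM
  let sq : Equiv.Perm M := powCoprime hc
  let K : Equiv.Perm ((G ⧸ M) × M) := Equiv.prodCongrRight (kap M)
  let P : Equiv.Perm (G ⧸ M) → Equiv.Perm ((G ⧸ M) × M) := fun g => Equiv.prodCongrLeft (fun _ : M => g)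
  have hP : ∀ g, Equiv.Perm.sign (P g) = Equiv.Perm.sign g := by
    intro g
    have h1 : Equiv.Perm.sign (P g) = ∏ _m : M, Equiv.Perm.sign g := Equiv.Perm.sign_prodCongrLeft _
    rw [h1, Finset.prod_const, Finset.card_univ, ← Nat.card_eq_fintype_card]
    rcases Int.units_eq_one_or (Equiv.Perm.sign g) with h | h
    · rw [h, one_pow]
    · rw [h, hM.neg_one_pow]
  let a : ℤˣ := Equiv.Perm.sign K
  let b : ℤˣ := (∏ j : G ⧸ M, Equiv.Perm.sign (kap M j)) * Equiv.Perm.sign sq ^ Fintype.card (G ⧸ M)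
  obtain ⟨g, F', hF, h1, h2⟩ := h (ε * a) (δ * b)
  rw [sgn_eq] at h1 h2
  -- the correction terms
  have hcc : ∀ i : G ⧸ M, (sec M (F' i))⁻¹ * (sec M i * sec M (g i)) ∈ M := by
    intro i
    rw [← QuotientGroup.eq, sec_eq, QuotientGroup.mk_mul, sec_eq, sec_eq, hF]
  let c : G ⧸ M → M := fun i => ⟨_, hcc i⟩
  let Ψ : Equiv.Perm ((G ⧸ M) × M) :=
    Equiv.prodCongrRight (fun i => (Equiv.mulLeft (c i) : Equiv.Perm M) * kap M (g i) * sq)
  refine ⟨(chart M).permCongr (K * P g), (chart M).permCongr (P F' * Ψ), ?_, ?_, ?_⟩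
  · intro x
    obtain ⟨⟨i, n⟩, rfl⟩ := (chart M).surjective x
    rw [Equiv.permCongr_apply, Equiv.permCongr_apply, Equiv.symm_apply_apply]
    have e1 : (K * P g) (i, n) = (g i, kap M (g i) n) := rfl
    have e2 : (P F' * Ψ) (i, n) = (F' i, c i * kap M (g i) (sq n)) := rfl
    rw [e1, e2, chart_apply, chart_apply, chart_apply]
    have e3 : ((sq n : M) : G) = (n : G) * n := by
      show ((n ^ 2 : M) : G) = _
      rw [pow_two]; rfl
    rw [Subgroup.coe_mul, kap_apply, kap_apply, e3]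
    show sec M (F' i) * ((sec M (F' i))⁻¹ * (sec M i * sec M (g i)) * ((sec M (g i))⁻¹ * (↑n * ↑n) * sec M (g i))) = _
    group
  · rw [sgn_congr, sgn_eq, Equiv.Perm.sign_mul, hP, h1]
    show a * (ε * a) = ε
    rw [mul_comm ε a, ← mul_assoc, Int.units_mul_self, one_mul]
  · have h3 : Equiv.Perm.sign Ψ = b := by
      have h4 : Equiv.Perm.sign Ψ =
          ∏ i : G ⧸ M, Equiv.Perm.sign ((Equiv.mulLeft (c i) : Equiv.Perm M) * kap M (g i) * sq) :=
        Equiv.Perm.sign_prodCongrRight _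
      rw [h4]
      have h5 : ∀ i : G ⧸ M, Equiv.Perm.sign ((Equiv.mulLeft (c i) : Equiv.Perm M) * kap M (g i) * sq) =
          Equiv.Perm.sign (kap M (g i)) * Equiv.Perm.sign sq := by
        intro i
        rw [Equiv.Perm.sign_mul, Equiv.Perm.sign_mul, sign_mulLeft_odd hM, one_mul]
      rw [Finset.prod_congr rfl fun i _ => h5 i, Finset.prod_mul_distrib, Finset.prod_const, Finset.card_univ,
        Equiv.prod_comp g (fun j => Equiv.Perm.sign (kap M j))]
    rw [sgn_congr, sgn_eq, Equiv.Perm.sign_mul, hP, h2, h3, mul_assoc, Int.units_mul_self, mul_one]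

end H22.LG
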