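import Pool.Agent.H22.LG.BN

set_option autoImplicit false

namespace H22.LG

theorem t_PST (hI : S_INO) (hD : S_DEC) : S_PST := by
  intro G _ _ D J K hJK hK h
  have hJN : ∀ x ∈ Subgroup.closure J, x ∈ D.N := fun x hx =>
    ((Subgroup.closure_le _).2 fun s hs => D.sN s (hK (hJK hs))) hx
  have hKN : ∀ x ∈ Subgroup.closure K, x ∈ D.N := fun x hx =>
    ((Subgroup.closure_le _).2 fun s hs => D.sN s (hK hs)) hx
  have hBJ : ∀ x ∈ D.B, x ∈ D.P J := fun x hx => Subgroup.subset_closure (Or.inl hx)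
  have hBK : ∀ x ∈ D.B, x ∈ D.P K := fun x hx => Subgroup.subset_closure (Or.inl hx)
  have hJJ : ∀ x ∈ Subgroup.closure J, x ∈ D.P J := fun x hx =>
    Subgroup.closure_mono (fun y hy => Or.inr hy) hx
  have hKK : ∀ x ∈ Subgroup.closure K, x ∈ D.P K := fun x hx =>
    Subgroup.closure_mono (fun y hy => Or.inr hy) hx
  have hJK' : ∀ x ∈ D.P J, x ∈ D.P K := fun x hx =>
    Subgroup.closure_mono (Set.union_subset_union_right _ hJK) hx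
  -- membership in the double coset of `x₀`
  have key : ∀ x0 y : D.P K, (∃ p ∈ D.P J, ∃ q ∈ D.P J, y.1 = p * x0.1 * q) →
      DoubleCoset.mk ((D.P J).subgroupOf (D.P K)) ((D.P J).subgroupOf (D.P K)) y =
        DoubleCoset.mk ((D.P J).subgroupOf (D.P K)) ((D.P J).subgroupOf (D.P K)) x0 := by
    rintro x0 y ⟨p, hp, q, hq, hy⟩
    symm
    rw [DoubleCoset.eq]
    exact ⟨⟨p, hJK' p hp⟩, hp, ⟨q, hJK' q hq⟩, hq, Subtype.ext hy⟩
  refine ⟨1, 1, rfl, rfl, fun _ => rfl, fun _ => rfl, ?_⟩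
  intro d
  obtain ⟨x0, rfl⟩ : ∃ x0, DoubleCoset.mk ((D.P J).subgroupOf (D.P K)) ((D.P J).subgroupOf (D.P K)) x0 = d :=
    Quotient.exists_rep d
  obtain ⟨n, hn, hx⟩ := hD G D K hK x0.1 x0.2
  obtain ⟨b1, hb1, c1, hc1, hx⟩ := hx
  obtain ⟨a, ha, b, hb, hab⟩ := h n hn
  have hm : a * n * b ∈ D.N := D.N.mul_mem (D.N.mul_mem (hJN a ha) (hKN n hn)) (hJN b hb)
  have hmP : a * n * b ∈ D.P K :=
    (D.P K).mul_mem ((D.P K).mul_mem (hJK' _ (hJJ a ha)) (hKK n hn)) (hJK' _ (hJJ b hb))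
  obtain ⟨c, hc, hcd⟩ := hI G D (a * n * b) hm hab
  obtain ⟨b2, hb2, c2, hc2, hcd⟩ := hcd
  have hn' : n = b1⁻¹ * x0.1 * c1⁻¹ := by rw [hx]; group
  have e1 : a * n * b = (a * b1⁻¹) * x0.1 * (c1⁻¹ * b) := by rw [hn']; group
  have m1 : a * b1⁻¹ ∈ D.P J := (D.P J).mul_mem (hJJ a ha) ((D.P J).inv_mem (hBJ _ hb1))
  have m2 : c1⁻¹ * b ∈ D.P J := (D.P J).mul_mem ((D.P J).inv_mem (hBJ _ hc1)) (hJJ b hb)
  refine ⟨⟨a * n * b * c, (D.P K).mul_mem hmP (hBK c hc)⟩, ⟨a * n * b, hmP⟩, ?_, ?_, ?_⟩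
  · apply key
    refine ⟨_, m1, c1⁻¹ * b * c, (D.P J).mul_mem m2 (hBJ _ hc), ?_⟩
    show a * n * b * c = _
    rw [e1]; group
  · apply key
    exact ⟨_, m1, _, m2, e1⟩
  · apply key
    refine ⟨b2 * (a * b1⁻¹), (D.P J).mul_mem (hBJ _ hb2) m1, c1⁻¹ * b * c2, (D.P J).mul_mem m2 (hBJ _ hc2), ?_⟩
    show a * n * b * c * (a * n * b) = _
    rw [hcd]
    conv_lhs => rw [e1]
    group

end H22.LG
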