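import Pool.Agent.H22.LG.Fin
import Pool.Agent.H22.LG.PST
import Pool.Agent.H64.LG.DEC

set_option autoImplicit false

namespace H22.LG

open Pool.Agent.Y382.PAR H22.CM

theorem par_step (hP : S_PST) {G : Type} [Group G] [Finite G] (C : Subgroup G) (D : BN C) (J K : Set C)
    (h1 : J ⊆ K) (h2 : K ⊆ D.S)
    (h3 : ∀ n ∈ Subgroup.closure K, ∃ a ∈ Subgroup.closure J, ∃ b ∈ Subgroup.closure J,
      (a * n * b) * (a * n * b) ∈ D.B)
    (h : AllPar ((D.P J).map C.subtype)) : AllPar ((D.P K).map C.subtype) := by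
  have hle : D.P J ≤ D.P K := Subgroup.closure_mono (Set.union_subset_union_right _ h1)
  have hinj : Function.Injective C.subtype := C.subtype_injective
  have e1 : AllPar (D.P J) :=
    Pool.Agent.Y77.PAR.t_ISO _ _ ((D.P J).equivMapOfInjective C.subtype hinj).symm h
  have e2 : AllPar ((D.P J).subgroupOf (D.P K)) :=
    Pool.Agent.Y77.PAR.t_ISO _ _ (Subgroup.subgroupOfEquivOfLe hle).symm e1
  have e3 : AllPar (D.P K) := step_allPar a_DCG _ _ (Or.inl (hP C D J K h1 h2 h3)) e2
  exact Pool.Agent.Y77.PAR.t_ISO _ _ ((D.P K).equivMapOfInjective C.subtype hinj) e3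

end H22.LG
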