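import Pool.Agent.H22.CM.Stm2

/-!
# CREW LG: parities of complete mappings of general linear groups (MP_281388_al)

`E` is a group between `SL(n, F)` and `GL(n, F)` and `π : E → G` is surjective with kernel in the scalars (so `G` may be
`GL, SL, PGL, PSL, ...`). Chain of the flag stabilisers `P_0 = GL, P_1, ..., P_n = upper triangular matrices`; `P_k` is
doubly transitive on the cosets of `P_{k+1}` for `k + 2 ≤ n`, so `AllPar` climbs up by the (proved) statement `S_DTA`; the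
upper triangular matrices are a solvable group, for which the (proved) statement `S_SOL` gives `AllPar`.
-/

set_option autoImplicit false

namespace H22.LG

open Pool.Agent.Y382.PAR H22.CM Matrix

/-- the invertible matrices whose first `k` columns are upper triangular (the stabiliser of the standard flag
`V_1 < ... < V_k`) -/
def P (n k : ℕ) (F : Type) [Field F] [Fintype F] [DecidableEq F] : Subgroup (GL (Fin n) F) :=
  let S : Submonoid (GL (Fin n) F) :=
    { carrier := {g | ∀ i j : Fin n, j.1 < k → j < i → g.1 i j = 0}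
      one_mem' := fun i j _ hij => by
        show (1 : Matrix (Fin n) (Fin n) F) i j = 0
        exact Matrix.one_apply_ne (ne_of_gt hij)
      mul_mem' := fun {g h} hg hh i j hj hij => by
        show (g.1 * h.1) i j = 0
        rw [Matrix.mul_apply]
        refine Finset.sum_eq_zero fun l _ => ?_
        rcases lt_or_ge j l with h1 | h1
        · rw [hh l j hj h1, mul_zero]
        · rw [hg i l (lt_of_le_of_lt (Fin.le_def.1 h1) hj) (lt_of_le_of_lt h1 hij), zero_mul] }
  { S with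
    inv_mem' := fun {g} hg => by
      have h1 : g⁻¹ = g ^ (orderOf g - 1) := by
        rw [inv_eq_iff_mul_eq_one, ← pow_succ', Nat.sub_add_cancel (orderOf_pos g), pow_orderOf_eq_one]
      show g⁻¹ ∈ S
      rw [h1]
      exact S.pow_mem hg _ }

theorem mem_P {n k : ℕ} {F : Type} [Field F] [Fintype F] [DecidableEq F] {g : GL (Fin n) F} :
    g ∈ P n k F ↔ ∀ i j : Fin n, j.1 < k → j < i → g.1 i j = 0 := Iff.rfl

/-- scalar matrices -/
def Sc {n : ℕ} {F : Type} [Field F] (g : GL (Fin n) F) : Prop :=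
  ∃ c : F, ∀ i j : Fin n, g.1 i j = if i = j then c else 0

/-- the data `(E, π)` -/
structure Dat (n : ℕ) (F : Type) [Field F] [Fintype F] [DecidableEq F] (G : Type) [Group G] where
  /-- a group between `SL(n, F)` and `GL(n, F)` -/
  E : Subgroup (GL (Fin n) F)
  /-- all matrices of determinant one lie in it -/
  sl : ∀ g : GL (Fin n) F, g.1.det = 1 → g ∈ E
  /-- a homomorphism onto `G` -/
  π : E →* G
  /-- it is surjective -/
  sur : Function.Surjective π
  /-- its kernel consists of scalars -/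
  ker : ∀ x : E, π x = 1 → Sc x.1

/-- the image of `P_k` in `G` -/
def Q {n : ℕ} {F : Type} [Field F] [Fintype F] [DecidableEq F] {G : Type} [Group G] (D : Dat n F G) (k : ℕ) :
    Subgroup G := ((P n k F).subgroupOf D.E).map D.π

/-- **BRU** (120 lines). Proof. `w` = the signed swap of `e_k, e_{k+1}`: `w e_k = e_{k+1}`, `w e_{k+1} = - e_k`, other basis
vectors fixed (as a matrix: `fun i j => if j = k then (if i = k+1 then 1 else 0) else if j = k+1 then (if i = k then -1 else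
0) else if i = j then 1 else 0`; it is the product of three transvections `t_{k+1,k}(1) t_{k,k+1}(-1) t_{k+1,k}(1)`, so
`det = 1` by `Matrix.det_transvection_of_ne`). Given `g`, let `c` be column `k` of `g`; `c_i ≠ 0` for some `i > k`. There is
a row vector `f` with `f_j = 0` for `j ≤ k`, `f c = 1`, `f_{k+1} ≠ 0` (if `c_{k+1} ≠ 0`: `f = c_{k+1}⁻¹ e_{k+1}*`; else
`f = c_i⁻¹ e_i* + e_{k+1}*`). `a0 = 1 + (e_{k+1} - c) f` has `a0 c = e_{k+1}`, `a0 e_j = e_j` for `j ≤ k`, and
`det a0 = 1 + f (e_{k+1} - c) = f_{k+1} ≠ 0` (`Matrix.det_one_add_mul_comm`, `Matrix.det_one_add_replicateCol_mul_replicateRow`).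
Put `a1 = diag(f_{k+1}⁻¹, 1, ..., 1) a0`: determinant one, in `P_{k+1}` and still `a1 c = e_{k+1}` (as `(e_{k+1})_0 = 0`).
Then `h = w⁻¹ a1 g` lies in `P_k` and its column `k` is `w⁻¹ e_{k+1} = e_k`, so `h ∈ P_{k+1}`; `a = a1⁻¹`. -/
def S_BRU : Prop := ∀ (F : Type) [Field F] [Fintype F] [DecidableEq F] (n k : ℕ), k + 2 ≤ n →
  ∃ w : GL (Fin n) F, w ∈ P n k F ∧ w ∉ P n (k + 1) F ∧ w.1.det = 1 ∧
    ∀ g : GL (Fin n) F, g ∈ P n k F → g ∉ P n (k + 1) F →
      ∃ a h : GL (Fin n) F, a ∈ P n (k + 1) F ∧ h ∈ P n (k + 1) F ∧ a.1.det = 1 ∧ g = a * w * h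

/-- **THR** (50 lines). `w` = signed swap (or `w = t_{k+1,k}(1) t_{k,k+1}(-1) t_{k+1,k}(1)`), `u = t_{k+1,k}(1)`
(transvections); `w⁻¹ u e_k = w⁻¹ (e_k + e_{k+1}) = e_k - e_{k+1}` up to sign. Only the entry `(k+1, k)` matters. -/
def S_THR : Prop := ∀ (F : Type) [Field F] [Fintype F] [DecidableEq F] (n k : ℕ), k + 2 ≤ n →
  ∃ w u : GL (Fin n) F, w ∈ P n k F ∧ u ∈ P n k F ∧ w.1.det = 1 ∧ u.1.det = 1 ∧
    w ∉ P n (k + 1) F ∧ u ∉ P n (k + 1) F ∧ w⁻¹ * u ∉ P n (k + 1) F

/-- **SLB** (80 lines). The upper triangular matrices are a solvable group. Proof: `g ↦ (g_ii)_i` is a homomorphism to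
`Fin n → Fˣ` (commutative); its kernel `U` is a `p`-group (`p = ringChar F`): `g - 1` is nilpotent (charpoly of an upper
triangular matrix `Matrix.charpoly_of_upperTriangular`, Cayley-Hamilton), `g ^ (p ^ m) = 1 + (g - 1) ^ (p ^ m) = 1`
(`add_pow_char_pow_of_commute`), so `U` is nilpotent (`IsPGroup.isNilpotent`), solvable. -/
def S_SLB : Prop := ∀ (F : Type) [Field F] [Fintype F] [DecidableEq F] (n : ℕ), Group.IsSolvable (P n n F)

/-- **KLE** (50 lines). A finite group with two commuting involutions has no cyclic Sylow 2-subgroup (the closure of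
`{a, b}` is a 2-group, it lies in a Sylow subgroup; all are conjugate; a cyclic group has at most one involution,
`IsCyclic.card_pow_eq_one_le`). -/
def S_KLE : Prop := ∀ (B : Type) [Group B] [Finite B] (a b : B), a ≠ 1 → b ≠ 1 → a ≠ b → a * a = 1 → b * b = 1 →
  a * b = b * a → ∀ P : Sylow 2 B, (P : Subgroup B) = ⊥ ∨ ¬ IsCyclic (P : Subgroup B)

/-- **INV** (80 lines). `char F = 2`: transvections `t_{0,n-1}(1), t_{0,1}(1)` if `n ≥ 3`, `t_{0,1}(1), t_{0,1}(c)`,
`c ≠ 0, 1`, if `n = 2`. `char F ≠ 2`, `n ≥ 3`: `diag(-1, -1, 1, ...)` and `diag(1, -1, -1, 1, ...)`. -/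
def S_INV : Prop := ∀ (F : Type) [Field F] [Fintype F] [DecidableEq F] (n : ℕ),
  (3 ≤ n ∨ (n = 2 ∧ CharP F 2 ∧ 3 ≤ Fintype.card F)) →
  ∃ a b : GL (Fin n) F, a ∈ P n n F ∧ b ∈ P n n F ∧ a.1.det = 1 ∧ b.1.det = 1 ∧ a * a = 1 ∧ b * b = 1 ∧
    a * b = b * a ∧ ¬ Sc a ∧ ¬ Sc b ∧ ¬ Sc (a⁻¹ * b)

/-- **ROW** (60 lines). `c ↦ π(1 + e_0 c)`, `c` a row vector with `c_0 = 0`, is injective into `Q D n` (the quotient of two
such matrices is scalar only if it is `1`). -/
def S_ROW : Prop := ∀ (F : Type) [Field F] [Fintype F] [DecidableEq F] (n : ℕ) (G : Type) [Group G] [Finite G]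
  (D : Dat n F G), 1 ≤ n → Fintype.card F ^ (n - 1) ≤ Nat.card (Q D n)

/-- **UPB** (15 lines). `|G| ≤ |E| ≤ |GL| ≤ |Mat|`. -/
def S_UPB : Prop := ∀ (F : Type) [Field F] [Fintype F] [DecidableEq F] (n : ℕ) (G : Type) [Group G] [Finite G]
  (_ : Dat n F G), Nat.card G ≤ Fintype.card F ^ (n * n)

/-- **CHN** (120 lines, from `S_BRU`, `S_THR` and the proved `S_DTA`). Downward induction: `AllPar (Q D (k+1))` gives
`AllPar (Q D k)` for `k + 2 ≤ n` by `S_DTA` for the group `Q D k` and `H = (Q D (k+1)).subgroupOf (Q D k)` (isomorphic to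
`Q D (k+1)`: `Subgroup.subgroupOfEquivOfLe`; transport by `Pool.Agent.Y77.PAR.t_ISO`). If `x, g ∈ E ∩ P_k` lie outside
`P_{k+1}`: `x = a w h`, `g = a' w h'`, so `x = (a a'⁻¹) g (h'⁻¹ h)`, and `a, a', w ∈ SL ⊆ E`, so `h, h' ∈ E`. Elements of
`Q D k` outside `Q D (k+1)` are images of such `x`. The index is at least 3 by `S_THR` (if `π` of an element of
`E ∩ P_k` lies in `Q D (k+1)`, it lies in `P_{k+1}`, since the kernel of `π` is made of scalars, which lie in all `P_j`).
`Q D (n-1) = Q D n` (`P n (n-1) = P n n`), `Q D 0 = ⊤`. -/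
def S_CHN : Prop := ∀ (F : Type) [Field F] [Fintype F] [DecidableEq F] (n : ℕ) (G : Type) [Group G] [Finite G]
  (D : Dat n F G), 1 ≤ n → AllPar (Q D n) → AllPar G

/-- **LIN** (80 lines, from SLB KLE INV ROW UPB CHN and the proved `S_SOL`). With `N0` from `S_SOL` take
`N = N0 ^ (N0 * N0) + 17`. If `|Q D n| < N0` then `q ≤ q ^ (n-1) < N0`, `n - 1 < q ^ (n - 1) < N0`, so
`|G| ≤ q ^ (n * n) ≤ N0 ^ (N0 * N0)`; and `n = 2`, `q = 2` gives `|G| ≤ 16`. -/
def S_LIN : Prop := ∃ N : ℕ, ∀ (F : Type) [Field F] [Fintype F] [DecidableEq F] (n : ℕ) (G : Type) [Group G] [Finite G]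
  (_ : Dat n F G), 2 ≤ n → (3 ≤ n ∨ CharP F 2) → N ≤ Nat.card G → AllPar G

end H22.LG
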